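import Pool.Agent.LeoK.StrStmts
import Pool.Agent.Helper33_Leo4.Hil

/-! Squad LeoK (MP_5f2860_nt), module HIL: Hilbert's Theorem 94, from `Helper33_Leo4`. -/

namespace Pool.Agent.LeoK.H86

theorem hil : HilStmt := Pool.Agent.Leo4.H33.hil

end Pool.Agent.LeoK.H86
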